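import Pool.Agent.P8H34.MB.Stm

/-!
Project MB (helper34), part LIM: closed invariant cones contain the components of their elements.
-/

set_option autoImplicit false

namespace Pool.Agent.P8H88.MB

open Pool.Agent.N110.CC
open Pool.Agent.P8H34.MB
open Filter Topology

theorem dat_repr_G {r b ρ : ℕ} {d : Fin b → ℕ} {ℓ : Ix d → Frm r}
    {s : ∀ i, Fin (d i) → Fin ρ → ℤ} {G : (Fin r → ℤ) → ((Fin ρ → ℝ) →ₗ[ℝ] (Fin ρ → ℝ))}
    {e : Module.Basis (Ix d) ℝ (Fin ρ → ℝ)} (h : Dat d ℓ s G e) (v : Fin r → ℤ)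
    (x : Fin ρ → ℝ) (p : Ix d) : e.repr (G v x) p = Real.exp (ev (ℓ p) v) * e.repr x p := by
  classical
  have h1 : x = ∑ k, e.repr x k • e k := (e.sum_repr x).symm
  have h2 : G v x = ∑ k, (Real.exp (ev (ℓ k) v) * e.repr x k) • e k := by
    conv_lhs => rw [h1]
    rw [map_sum]
    refine Finset.sum_congr rfl fun k _ => ?_
    rw [map_smul, h.eig, smul_smul, mul_comm]
  rw [h2]
  simp [map_sum, Finsupp.single_apply]

/-- the orbit of a vector, divided by the largest eigenvalue, tends to a component -/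
theorem dat_tendsto {r b ρ : ℕ} {d : Fin b → ℕ} {ℓ : Ix d → Frm r}
    {s : ∀ i, Fin (d i) → Fin ρ → ℤ} {G : (Fin r → ℤ) → ((Fin ρ → ℝ) →ₗ[ℝ] (Fin ρ → ℝ))}
    {e : Module.Basis (Ix d) ℝ (Fin ρ → ℝ)} (h : Dat d ℓ s G e) {p : Ix d} {v : Fin r → ℤ}
    (hvk : ∀ q, q ≠ p → ev (ℓ q) v < ev (ℓ p) v) (x : Fin ρ → ℝ) :
    Tendsto (fun k : ℕ => Real.exp (-(k * ev (ℓ p) v)) • G (k • v) x) atTop
      (𝓝 (e.repr x p • e p)) := by
  classical
  have hlim : Tendsto (fun k : ℕ => Real.exp (-(k * ev (ℓ p) v)) • G (k • v) x) atTop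
      (𝓝 (∑ j, (if j = p then e.repr x p else 0) • e j)) := by
    have h1 : (fun k : ℕ => Real.exp (-(k * ev (ℓ p) v)) • G (k • v) x) = fun k : ℕ =>
        ∑ j, (Real.exp (-(k * ev (ℓ p) v)) * (Real.exp (k * ev (ℓ j) v) * e.repr x j)) • e j := by
      funext k
      have h2 : G (k • v) x = ∑ j, (Real.exp (k * ev (ℓ j) v) * e.repr x j) • e j := by
        conv_lhs => rw [← e.sum_repr (G (k • v) x)]
        refine Finset.sum_congr rfl fun j _ => ?_
        rw [dat_repr_G h, ev_nsmul]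
      rw [h2, Finset.smul_sum]
      refine Finset.sum_congr rfl fun j _ => ?_
      rw [smul_smul]
    rw [h1]
    refine tendsto_finsetSum _ fun j _ => ?_
    refine Tendsto.smul_const ?_ _
    by_cases hj : j = p
    · subst hj
      rw [if_pos rfl]
      refine Tendsto.congr (fun k => ?_) tendsto_const_nhds
      rw [← mul_assoc, ← Real.exp_add, neg_add_cancel, Real.exp_zero, one_mul]
    · rw [if_neg hj]
      have h3 : (fun k : ℕ => Real.exp (-(k * ev (ℓ p) v)) * (Real.exp (k * ev (ℓ j) v) *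
          e.repr x j)) = fun k : ℕ => Real.exp (ev (ℓ j) v - ev (ℓ p) v) ^ k * e.repr x j := by
        funext k
        rw [← mul_assoc, ← Real.exp_add, ← Real.exp_nat_mul]
        congr 2
        ring
      rw [h3]
      have h4 : Real.exp (ev (ℓ j) v - ev (ℓ p) v) < 1 := by
        rw [Real.exp_lt_one_iff]
        have := hvk j hj
        linarith
      have h5 := (tendsto_pow_atTop_nhds_zero_of_lt_one (Real.exp_pos _).le h4).mul_const
        (e.repr x j)
      rwa [zero_mul] at h5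
  have h6 : ∑ j, (if j = p then e.repr x p else 0) • e j = e.repr x p • e p := by
    rw [Finset.sum_eq_single p]
    · rw [if_pos rfl]
    · intro j _ hj
      rw [if_neg hj, zero_smul]
    · intro hcon
      exact absurd (Finset.mem_univ _) hcon
  rwa [h6] at hlim

/-- **(LIM)** Closed invariant cones contain the components of their elements. -/
theorem t_LIM : S_LIM := by
  intro r b ρ d ℓ s G e h D hcl hsmul hpres x hx p
  obtain ⟨v, _, hvk, _⟩ := h.blk.dir p
  exact hcl.mem_of_tendsto (dat_tendsto h hvk x) (Eventually.of_forall fun k =>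
    hsmul _ (Real.exp_pos _).le _ (hpres _ _ hx))

end Pool.Agent.P8H88.MB
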